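import Pool.Agent.S04683

/-!
# MP_535d13_an, Q1: absolutely normal sets of uniqueness for every gauge function

For every gauge function `φ` with `r / φ r → 0` there is a closed set of uniqueness `K` of the
circle for which the `φ`-measure of the set of the absolutely normal numbers in `K` is infinite,
in particular positive.  The set is a set of type `H` (see `Lib/MP_535d13_an`).
-/

set_option autoImplicit false

namespace Pool.Agent.Results.MP_535d13_an.NormalUniquenessSets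

open Filter Topology MeasureTheory
open scoped ENNReal NNReal

/-- The digit with index `i` (the digit of weight `b ^ (-(i + 1))`) of `x` in base `b`. -/
noncomputable def digit (b : ℕ) (x : ℝ) (i : ℕ) : ℤ := ⌊x * (b : ℝ) ^ (i + 1)⌋ % (b : ℤ)

/-- `x` is absolutely normal: in every base `b ≥ 2` every block `w` of `k ≥ 1` digits has the
asymptotic frequency `b ^ (-k)`. -/
def AbsNormal (x : ℝ) : Prop :=
  ∀ b : ℕ, 2 ≤ b → ∀ k : ℕ, 1 ≤ k → ∀ w : Fin k → Fin b,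
    Tendsto (fun N : ℕ => (((Finset.range N).filter fun i : ℕ =>
      ∀ j : Fin k, digit b x (i + j) = ((w j : ℕ) : ℤ)).card : ℝ) / N) atTop
      (𝓝 (((b : ℝ) ^ k)⁻¹))

/-- The set of the absolutely normal numbers in `[0, 1)`, as a subset of the circle. -/
def absNormal : Set UnitAddCircle :=
  {x | ∃ y ∈ Set.Ico (0 : ℝ) 1, (y : UnitAddCircle) = x ∧ AbsNormal y}

/-- Closed sets of uniqueness of the circle `ℝ / ℤ`; `fourier n x` is `exp (2 π i n x)`. -/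
def IsUniquenessSet (E : Set UnitAddCircle) : Prop :=
  IsClosed E ∧ ∀ c : ℤ → ℂ,
    (∀ x ∉ E, Tendsto (fun N : ℕ => ∑ n ∈ Finset.Icc (-(N : ℤ)) (N : ℤ),
      c n * fourier n x) atTop (𝓝 0)) → ∀ n, c n = 0

/-- The Hausdorff `φ`-measure of a subset of a metric space. -/
noncomputable def gaugeMeasure {X : Type} [PseudoMetricSpace X] (φ : ℝ≥0 → ℝ≥0) (F : Set X) :
    ℝ≥0∞ :=
  ⨆ (δ : ℝ≥0) (_ : 0 < δ), ⨅ (U : ℕ → Set X) (_ : F ⊆ ⋃ i, U i)
    (_ : ∀ i, Metric.ediam (U i) < (δ : ℝ≥0∞)),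
    ∑' i, (φ (Metric.ediam (U i)).toNNReal : ℝ≥0∞)

/-! ## Auxiliary facts -/

theorem digit_fract (b : ℕ) (x : ℝ) (i : ℕ) :
    digit b (Int.fract x) i = ⌊x * (b : ℝ) ^ (i + 1)⌋ % (b : ℤ) := by
  unfold digit
  have h1 : x * (b : ℝ) ^ (i + 1) =
      Int.fract x * (b : ℝ) ^ (i + 1) + ((⌊x⌋ * (b : ℤ) ^ (i + 1) : ℤ) : ℝ) := by
    push_cast
    rw [← add_mul, Int.fract_add_floor]
  have h2 : ⌊x⌋ * (b : ℤ) ^ (i + 1) = (⌊x⌋ * (b : ℤ) ^ i) * (b : ℤ) := by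
    rw [pow_succ, mul_assoc]
  rw [h1, Int.floor_add_intCast, h2, Int.add_mul_emod_self_right]

theorem edist_coe {a y z : ℝ} (hy : y ∈ Set.Icc a (a + 1 / 2)) (hz : z ∈ Set.Icc a (a + 1 / 2)) :
    edist y z = edist (y : UnitAddCircle) (z : UnitAddCircle) := by
  rw [edist_dist, edist_dist]
  congr 1
  have h1 : dist (y : UnitAddCircle) (z : UnitAddCircle) = ‖((y - z : ℝ) : UnitAddCircle)‖ := by
    rw [dist_eq_norm]
    rfl
  rw [h1, Real.dist_eq]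
  symm
  rw [AddCircle.norm_coe_eq_abs_iff (p := (1 : ℝ)) one_ne_zero, abs_one]
  exact abs_sub_le_iff.2 ⟨by linarith [hy.2, hz.1], by linarith [hz.2, hy.1]⟩

/-- The gauge function between `r` and `φ r`. -/
noncomputable def mid (φ : ℝ≥0 → ℝ≥0) (r : ℝ) : ℝ := √(r * (φ r.toNNReal : ℝ))

section

variable {φ : ℝ≥0 → ℝ≥0}

theorem mid_mono (hmono : Monotone φ) : MonotoneOn (mid φ) (Set.Ici 0) := by
  intro r hr s hs hrs
  unfold mid
  apply Real.sqrt_le_sqrt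
  have h1 : φ r.toNNReal ≤ φ s.toNNReal := hmono (Real.toNNReal_le_toNNReal hrs)
  have h2 : (φ r.toNNReal : ℝ) ≤ (φ s.toNNReal : ℝ) := by exact_mod_cast h1
  exact mul_le_mul hrs h2 (NNReal.coe_nonneg _) hs

theorem mid_pos (hpos : ∀ r, 0 < r → 0 < φ r) (r : ℝ) (hr : 0 < r) : 0 < mid φ r := by
  unfold mid
  apply Real.sqrt_pos.2
  have h1 : 0 < φ r.toNNReal := hpos _ (Real.toNNReal_pos.2 hr)
  have h2 : (0 : ℝ) < (φ r.toNNReal : ℝ) := by exact_mod_cast h1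
  positivity

theorem mid_lim (hmono : Monotone φ) : Tendsto (mid φ) (𝓝[>] (0 : ℝ)) (𝓝 0) := by
  have h1 : Tendsto (fun r : ℝ => √(r * (φ 1 : ℝ))) (𝓝[>] (0 : ℝ)) (𝓝 0) := by
    have h2 : Tendsto (fun r : ℝ => √(r * (φ 1 : ℝ))) (𝓝 (0 : ℝ)) (𝓝 √(0 * (φ 1 : ℝ))) := by
      have : Continuous fun r : ℝ => √(r * (φ 1 : ℝ)) := by fun_prop
      exact this.tendsto 0
    rw [zero_mul, Real.sqrt_zero] at h2
    exact h2.mono_left nhdsWithin_le_nhds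
  refine squeeze_zero' (Eventually.of_forall fun r => Real.sqrt_nonneg _) ?_ h1
  have h3 : ∀ᶠ r : ℝ in 𝓝[>] (0 : ℝ), r ∈ Set.Ioo (0 : ℝ) 1 := Ioo_mem_nhdsGT one_pos
  filter_upwards [h3] with r hr
  unfold mid
  apply Real.sqrt_le_sqrt
  have h4 : φ r.toNNReal ≤ φ 1 := hmono (Real.toNNReal_le_one.2 hr.2.le)
  have h5 : (φ r.toNNReal : ℝ) ≤ (φ 1 : ℝ) := by exact_mod_cast h4
  exact mul_le_mul_of_nonneg_left h5 hr.1.le

theorem mid_quot (hpos : ∀ r, 0 < r → 0 < φ r)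
    (hlim : Tendsto (fun r : ℝ≥0 => r / φ r) (𝓝[>] 0) (𝓝 0)) :
    Tendsto (fun r : ℝ => r / mid φ r) (𝓝[>] (0 : ℝ)) (𝓝 0) := by
  have h1 : Tendsto Real.toNNReal (𝓝[>] (0 : ℝ)) (𝓝[>] (0 : ℝ≥0)) := by
    refine tendsto_nhdsWithin_iff.2 ⟨?_, ?_⟩
    · have h2 : Tendsto Real.toNNReal (𝓝 (0 : ℝ)) (𝓝 (Real.toNNReal 0)) :=
        continuous_real_toNNReal.tendsto 0
      rw [Real.toNNReal_zero] at h2
      exact h2.mono_left nhdsWithin_le_nhds
    · filter_upwards [self_mem_nhdsWithin] with r hr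
      exact Real.toNNReal_pos.2 hr
  have h2 : Tendsto (fun r : ℝ => ((r.toNNReal / φ r.toNNReal : ℝ≥0) : ℝ)) (𝓝[>] (0 : ℝ))
      (𝓝 ((0 : ℝ≥0) : ℝ)) := NNReal.tendsto_coe.2 (hlim.comp h1)
  have h3 : Tendsto (fun r : ℝ => √((r.toNNReal / φ r.toNNReal : ℝ≥0) : ℝ)) (𝓝[>] (0 : ℝ))
      (𝓝 √((0 : ℝ≥0) : ℝ)) := (Real.continuous_sqrt.tendsto _).comp h2
  rw [NNReal.coe_zero, Real.sqrt_zero] at h3
  refine h3.congr' ?_
  filter_upwards [self_mem_nhdsWithin] with r hr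
  have hr0 : (0 : ℝ) < r := hr
  have hφ0 : 0 < φ r.toNNReal := hpos _ (Real.toNNReal_pos.2 hr0)
  have hφ : (0 : ℝ) < (φ r.toNNReal : ℝ) := by exact_mod_cast hφ0
  unfold mid
  rw [NNReal.coe_div, Real.coe_toNNReal r hr0.le, Real.sqrt_div hr0.le, Real.sqrt_mul hr0.le]
  have h4 : 0 < √r := Real.sqrt_pos.2 hr0
  have h5 : 0 < √(φ r.toNNReal : ℝ) := Real.sqrt_pos.2 hφ
  rw [div_eq_div_iff h5.ne' (by positivity)]
  have h6 : √r * √r = r := Real.mul_self_sqrt hr0.le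
  calc √r * (√r * √(φ r.toNNReal : ℝ)) = (√r * √r) * √(φ r.toNNReal : ℝ) := by ring
    _ = r * √(φ r.toNNReal : ℝ) := by rw [h6]

/-- `mid φ` is small compared with `φ`. -/
theorem mid_le (h0 : φ 0 = 0) (hpos : ∀ r, 0 < r → 0 < φ r)
    (hlim : Tendsto (fun r : ℝ≥0 => r / φ r) (𝓝[>] 0) (𝓝 0)) {ε : ℝ≥0} (hε : 0 < ε) :
    ∃ δ : ℝ≥0, 0 < δ ∧ ∀ r : ℝ≥0, r < δ → mid φ r ≤ ε * φ r := by
  have h1 : ∀ᶠ r : ℝ≥0 in 𝓝[>] 0, r / φ r < ε ^ 2 :=
    hlim.eventually_lt_const (by positivity)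
  obtain ⟨δ, hδ, h2⟩ := mem_nhdsGT_iff_exists_Ioo_subset.1 h1
  refine ⟨δ, hδ, fun r hr => ?_⟩
  rcases eq_or_ne r 0 with h3 | h3'
  · rw [h3, h0]
    unfold mid
    simp
  · have h3 : 0 < r := pos_iff_ne_zero.2 h3'
    have h4 : r / φ r < ε ^ 2 := h2 ⟨h3, hr⟩
    have h5 : 0 < φ r := hpos r h3
    have h6 : r < ε ^ 2 * φ r := (div_lt_iff₀ h5).1 h4
    have h7 : (r : ℝ) < (ε : ℝ) ^ 2 * (φ r : ℝ) := by exact_mod_cast h6
    have h8 : (0 : ℝ) < (φ r : ℝ) := by exact_mod_cast h5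
    unfold mid
    rw [Real.toNNReal_coe]
    refine Real.sqrt_le_iff.2 ⟨by positivity, ?_⟩
    calc (r : ℝ) * (φ r : ℝ) ≤ ((ε : ℝ) ^ 2 * (φ r : ℝ)) * (φ r : ℝ) :=
          mul_le_mul_of_nonneg_right h7.le h8.le
      _ = ((ε : ℝ) * (φ r : ℝ)) ^ 2 := by ring

/-- From positive measure for `mid φ` on the line to infinite `φ`-measure on the circle. -/
theorem measure_top (hmono : Monotone φ) (h0 : φ 0 = 0) (hpos : ∀ r, 0 < r → 0 < φ r)
    (hlim : Tendsto (fun r : ℝ≥0 => r / φ r) (𝓝[>] 0) (𝓝 0)) {S : Set ℝ}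
    (hS : S ⊆ Set.Icc 0 1) {F : Set UnitAddCircle} (hF : ∀ x ∈ S, (x : UnitAddCircle) ∈ F)
    (h : 0 < Measure.mkMetric (fun r : ℝ≥0∞ => ENNReal.ofReal (mid φ r.toReal)) S) :
    gaugeMeasure φ F = ⊤ := by
  obtain ⟨a, ha⟩ : ∃ a : ℝ, 0 < Measure.mkMetric
      (fun r : ℝ≥0∞ => ENNReal.ofReal (mid φ r.toReal)) (S ∩ Set.Icc a (a + 1 / 2)) := by
    by_contra hcon
    push Not at hcon
    have h1 := nonpos_iff_eq_zero.1 (hcon 0)
    have h2 := nonpos_iff_eq_zero.1 (hcon (1 / 2))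
    have h3 : S ⊆ (S ∩ Set.Icc 0 (0 + 1 / 2)) ∪ (S ∩ Set.Icc (1 / 2) (1 / 2 + 1 / 2)) := by
      intro x hx
      have hx' := hS hx
      rcases le_total x (1 / 2) with h4 | h4
      · exact Or.inl ⟨hx, hx'.1, by linarith⟩
      · exact Or.inr ⟨hx, h4, by linarith [hx'.2]⟩
    have h4 := (measure_mono h3).trans (measure_union_le (μ := Measure.mkMetric
      (fun r : ℝ≥0∞ => ENNReal.ofReal (mid φ r.toReal))) _ _)
    rw [h1, h2, add_zero] at h4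
    exact absurd h (not_lt.2 h4)
  rw [Measure.mkMetric_apply] at ha
  obtain ⟨r0, hr0⟩ := lt_iSup_iff.1 ha
  obtain ⟨hr0p, hκ⟩ := lt_iSup_iff.1 hr0
  obtain ⟨κ, hκ0, hκ1⟩ := ENNReal.lt_iff_exists_nnreal_btwn.1 hκ
  have hκp : 0 < κ := by exact_mod_cast hκ0
  obtain ⟨r1, hr1, hr1'⟩ := ENNReal.lt_iff_exists_nnreal_btwn.1 hr0p
  have hr1p : 0 < r1 := by exact_mod_cast hr1
  refine ENNReal.eq_top_of_forall_nnreal_le fun M => ?_
  obtain ⟨ε, hε⟩ : ∃ ε : ℝ≥0, ε = κ / (M + 1) := ⟨_, rfl⟩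
  have hε0 : 0 < ε := by rw [hε]; positivity
  obtain ⟨δ1, hδ1, hmid⟩ := mid_le h0 hpos hlim hε0
  refine le_iSup_of_le (min δ1 r1) (le_iSup_of_le (lt_min hδ1 hr1p) ?_)
  refine le_iInf fun U => le_iInf fun hU => le_iInf fun hd => ?_
  -- the sets on the line
  obtain ⟨V, hV⟩ : ∃ V : ℕ → Set ℝ, V = fun i =>
      {y : ℝ | y ∈ Set.Icc a (a + 1 / 2) ∧ (y : UnitAddCircle) ∈ U i} := ⟨_, rfl⟩
  have hVc : S ∩ Set.Icc a (a + 1 / 2) ⊆ ⋃ i, V i := by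
    rintro x ⟨hxS, hx⟩
    obtain ⟨i, hi⟩ := Set.mem_iUnion.1 (hU (hF x hxS))
    refine Set.mem_iUnion.2 ⟨i, ?_⟩
    rw [hV]
    exact ⟨hx, hi⟩
  have hVd : ∀ i, Metric.ediam (V i) ≤ Metric.ediam (U i) := by
    intro i
    refine Metric.ediam_le fun y hy z hz => ?_
    rw [hV] at hy hz
    rw [edist_coe hy.1 hz.1]
    exact Metric.edist_le_ediam_of_mem hy.2 hz.2
  have hUr : ∀ i, Metric.ediam (U i) ≤ r0 := fun i =>
    ((hd i).le.trans (by exact_mod_cast min_le_right _ _)).trans hr1'.le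
  have h1 : (κ : ℝ≥0∞) ≤ ∑' i, ⨆ _ : (V i).Nonempty,
      ENNReal.ofReal (mid φ (Metric.ediam (V i)).toReal) := by
    refine hκ1.le.trans ?_
    refine iInf_le_of_le V (iInf_le_of_le hVc (iInf_le_of_le (fun i => ?_) le_rfl))
    exact (hVd i).trans (hUr i)
  have h2 : ∀ i, (⨆ _ : (V i).Nonempty,
      ENNReal.ofReal (mid φ (Metric.ediam (V i)).toReal)) ≤
      (ε : ℝ≥0∞) * (φ (Metric.ediam (U i)).toNNReal : ℝ≥0∞) := by
    intro i
    refine iSup_le fun _ => ?_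
    have hfin : Metric.ediam (U i) ≠ ⊤ := ((hd i).trans_le le_top).ne
    obtain ⟨d, hdd⟩ : ∃ d : ℝ≥0, (d : ℝ≥0∞) = Metric.ediam (U i) :=
      ⟨_, ENNReal.coe_toNNReal hfin⟩
    have hdi := hd i
    have hVi := hVd i
    rw [← hdd] at hdi hVi ⊢
    rw [ENNReal.toNNReal_coe]
    have hd1 : d < δ1 := lt_of_lt_of_le (by exact_mod_cast hdi) (min_le_left _ _)
    have h3 : (Metric.ediam (V i)).toReal ≤ (d : ℝ) := by
      have := ENNReal.toReal_mono ENNReal.coe_ne_top hVi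
      rwa [ENNReal.coe_toReal] at this
    have h4 : mid φ (Metric.ediam (V i)).toReal ≤ mid φ d :=
      mid_mono hmono (Set.mem_Ici.2 ENNReal.toReal_nonneg) (Set.mem_Ici.2 d.2) h3
    have h5 := h4.trans (hmid d hd1)
    calc ENNReal.ofReal (mid φ (Metric.ediam (V i)).toReal)
        ≤ ENNReal.ofReal ((ε : ℝ) * (φ d : ℝ)) := ENNReal.ofReal_le_ofReal h5
      _ = (ε : ℝ≥0∞) * (φ d : ℝ≥0∞) := by
          rw [← NNReal.coe_mul, ENNReal.ofReal_coe_nnreal, ENNReal.coe_mul]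
  have h3 : (κ : ℝ≥0∞) ≤ (ε : ℝ≥0∞) * ∑' i, (φ (Metric.ediam (U i)).toNNReal : ℝ≥0∞) := by
    rw [← ENNReal.tsum_mul_left]
    exact h1.trans (ENNReal.tsum_le_tsum h2)
  have h4 : (ε : ℝ≥0∞) * (M + 1 : ℝ≥0) = κ := by
    rw [← ENNReal.coe_mul, hε, div_mul_cancel₀]
    positivity
  have h5 : ((M + 1 : ℝ≥0) : ℝ≥0∞) ≤ ∑' i, (φ (Metric.ediam (U i)).toNNReal : ℝ≥0∞) := by
    rw [← h4] at h3
    exact (ENNReal.mul_le_mul_iff_right (by exact_mod_cast hε0.ne') ENNReal.coe_ne_top).1 h3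
  exact le_trans (by exact_mod_cast le_self_add) h5

end

/-- **Absolutely normal sets of uniqueness for every gauge function.**  For every non-decreasing
`φ : [0, ∞) → [0, ∞)` with `φ 0 = 0`, `φ r > 0` for `r > 0` and `r / φ r → 0` as `r → 0+` there is
a closed set of uniqueness `K` of the circle such that the Hausdorff `φ`-measure of the set of
the absolutely normal numbers in `K` is infinite. -/
theorem result (φ : ℝ≥0 → ℝ≥0) (hmono : Monotone φ) (h0 : φ 0 = 0)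
    (hpos : ∀ r, 0 < r → 0 < φ r)
    (hlim : Tendsto (fun r : ℝ≥0 => r / φ r) (𝓝[>] 0) (𝓝 0)) :
    ∃ K : Set UnitAddCircle, IsUniquenessSet K ∧ gaugeMeasure φ (K ∩ absNormal) = ⊤ := by
  have hmid0 : mid φ 0 = 0 := by
    unfold mid
    simp
  obtain ⟨K₀, hK₀, hK₀1, huniq, hmeas⟩ := Pool.Agent.S04683.result (mid φ) (mid_mono hmono) hmid0
    (mid_pos hpos) (mid_lim hmono) (mid_quot hpos hlim)
  refine ⟨(fun x : ℝ => (x : UnitAddCircle)) '' K₀, ⟨?_, ?_⟩, ?_⟩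
  · have hc : IsCompact K₀ := isCompact_Icc.of_isClosed_subset hK₀ hK₀1
    exact (hc.image (AddCircle.continuous_mk' 1)).isClosed
  · intro c hc
    apply huniq c
    intro x hx
    have h1 := hc (x : UnitAddCircle) (by
      rintro ⟨y, hy, hyx⟩
      have h2 : ((y - x : ℝ) : UnitAddCircle) = 0 := by
        have h3 : (y : UnitAddCircle) = (x : UnitAddCircle) := hyx
        rw [AddCircle.coe_sub, h3, sub_self]
      obtain ⟨m, hm⟩ := (AddCircle.coe_eq_zero_iff (1 : ℝ)).1 h2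
      have h4 : x + (m : ℝ) = y := by
        rw [zsmul_eq_mul, mul_one] at hm
        rw [hm]
        ring
      exact hx m (by rw [h4]; exact hy))
    refine h1.congr fun N => ?_
    refine Finset.sum_congr rfl fun n _ => ?_
    rw [fourier_coe_apply]
    push_cast
    rw [div_one]
  · refine measure_top hmono h0 hpos hlim (S := K₀ ∩ _) (fun x hx => hK₀1 hx.1) ?_ hmeas
    rintro x ⟨hxK, hxA⟩
    refine ⟨⟨x, hxK, rfl⟩, Int.fract x, ⟨Int.fract_nonneg x, Int.fract_lt_one x⟩, ?_, ?_⟩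
    · have h2 : ((x - Int.fract x : ℝ) : UnitAddCircle) = 0 :=
        (AddCircle.coe_eq_zero_iff (1 : ℝ)).2 ⟨⌊x⌋, by
          rw [zsmul_eq_mul, mul_one, Int.self_sub_fract]⟩
      rw [AddCircle.coe_sub, sub_eq_zero] at h2
      exact h2.symm
    · intro b hb k _ w
      have h1 := hxA b hb k (fun j => ((w j : ℕ) : ℤ)) (fun j => ⟨by positivity, by
        exact_mod_cast (w j).2⟩)
      rw [one_div] at h1
      have e : ∀ i : ℕ, (∀ j : Fin k, ⌊x * (b : ℝ) ^ (i + j.val + 1)⌋ % (b : ℤ) =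
          ((w j : ℕ) : ℤ)) ↔ ∀ j : Fin k, digit b (Int.fract x) (i + j) = ((w j : ℕ) : ℤ) :=
        fun i => forall_congr' fun j => by rw [digit_fract]
      simp only [e] at h1
      exact h1

end Pool.Agent.Results.MP_535d13_an.NormalUniquenessSets
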